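import Pool.Agent.OMF.Stmts

/-! Row FMX of squad OMF. -/

namespace Pool.Agent.OMF.H81

open Finset
open scoped Classical

private lemma inter_le {ι : Type} [Fintype ι] (F : Finset (Finset ι))
    (h9 : ∀ C ∈ F, ∀ C' ∈ F, C ≠ C' → (C ∩ C').card ≤ 9) (C : Finset ι) (S : Finset (Finset ι))
    (hC : C ∈ F) (hS : S ⊆ F) (hCS : C ∉ S) : (C ∩ S.biUnion id).card ≤ 9 * S.card := by
  have hsub : C ∩ S.biUnion id ⊆ S.biUnion fun C' => C ∩ C' := by
    intro i hi
    rw [Finset.mem_inter, Finset.mem_biUnion] at hi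
    obtain ⟨hiC, C', hC', hiC'⟩ := hi
    rw [Finset.mem_biUnion]
    exact ⟨C', hC', Finset.mem_inter.mpr ⟨hiC, hiC'⟩⟩
  calc (C ∩ S.biUnion id).card ≤ (S.biUnion fun C' => C ∩ C').card := Finset.card_le_card hsub
    _ ≤ ∑ C' ∈ S, (C ∩ C').card := Finset.card_biUnion_le
    _ ≤ ∑ _C' ∈ S, 9 := by
        apply Finset.sum_le_sum
        intro C' hC'
        exact h9 C hC C' (hS hC') (fun h => hCS (h ▸ hC'))
    _ = 9 * S.card := by rw [Finset.sum_const, smul_eq_mul, Nat.mul_comm]

private lemma union_le {ι : Type} [Fintype ι] (F : Finset (Finset ι)) (k : ℕ)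
    (hk : ∀ C ∈ F, k ≤ C.card)
    (h9 : ∀ C ∈ F, ∀ C' ∈ F, C ≠ C' → (C ∩ C').card ≤ 9) (S : Finset (Finset ι)) :
    S ⊆ F → 2 * (S.card * k) + 9 * S.card ≤ 2 * (S.biUnion id).card + 9 * (S.card * S.card) := by
  induction S using Finset.induction_on with
  | empty => intro _; simp
  | insert C S hCS ih =>
    intro hS
    have hCF : C ∈ F := hS (Finset.mem_insert_self _ _)
    have hSF : S ⊆ F := fun x hx => hS (Finset.mem_insert_of_mem hx)
    have h1 := ih hSF
    have h2 := inter_le F h9 C S hCF hSF hCS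
    have h3 : (C ∪ S.biUnion id).card + (C ∩ S.biUnion id).card = C.card + (S.biUnion id).card :=
      Finset.card_union_add_card_inter _ _
    have h4 := hk C hCF
    rw [Finset.card_insert_of_notMem hCS, Finset.biUnion_insert]
    simp only [id] at h1 h2 h3 ⊢
    nlinarith

private lemma double_le {ι : Type} [Fintype ι] (F : Finset (Finset ι))
    (h9 : ∀ C ∈ F, ∀ C' ∈ F, C ≠ C' → (C ∩ C').card ≤ 9) (S : Finset (Finset ι)) :
    S ⊆ F → 2 * (univ.filter fun i => ∃ C ∈ S, ∃ C' ∈ S, C ≠ C' ∧ i ∈ C ∧ i ∈ C').card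
      + 9 * S.card ≤ 9 * (S.card * S.card) := by
  induction S using Finset.induction_on with
  | empty => intro _; simp
  | insert C S hCS ih =>
    intro hS
    have hCF : C ∈ F := hS (Finset.mem_insert_self _ _)
    have hSF : S ⊆ F := fun x hx => hS (Finset.mem_insert_of_mem hx)
    have h1 := ih hSF
    have h2 := inter_le F h9 C S hCF hSF hCS
    have h3 : (univ.filter fun i => ∃ D ∈ insert C S, ∃ D' ∈ insert C S, D ≠ D' ∧ i ∈ D ∧ i ∈ D')
        ⊆ (univ.filter fun i => ∃ D ∈ S, ∃ D' ∈ S, D ≠ D' ∧ i ∈ D ∧ i ∈ D') ∪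
          (C ∩ S.biUnion id) := by
      intro i hi
      rw [Finset.mem_filter] at hi
      obtain ⟨-, D, hD, D', hD', hne, hiD, hiD'⟩ := hi
      rw [Finset.mem_union, Finset.mem_filter, Finset.mem_inter, Finset.mem_biUnion]
      rw [Finset.mem_insert] at hD hD'
      rcases hD with rfl | hD
      · rcases hD' with rfl | hD'
        · exact absurd rfl hne
        · exact Or.inr ⟨hiD, D', hD', hiD'⟩
      · rcases hD' with rfl | hD'
        · exact Or.inr ⟨hiD', D, hD, hiD⟩
        · exact Or.inl ⟨Finset.mem_univ _, D, hD, D', hD', hne, hiD, hiD'⟩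
    have h4 := (Finset.card_le_card h3).trans (Finset.card_union_le _ _)
    rw [Finset.card_insert_of_notMem hCS]
    nlinarith

theorem fmx : FmxStmt := by
  intro ι _ F k h100 hk h9
  set n := Fintype.card ι with hn
  have hD := double_le F h9 F (Finset.Subset.refl F)
  set D := (univ.filter fun i => ∃ C ∈ F, ∃ C' ∈ F, C ≠ C' ∧ i ∈ C ∧ i ∈ C').card with hDdef
  have hDn : D ≤ n := by rw [hDdef, hn]; exact Finset.card_le_univ _
  rcases Nat.eq_zero_or_pos n with h0 | hpos
  · have : D = 0 := by omega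
    rw [this]; simp
  rcases Finset.eq_empty_or_nonempty F with hF | hF
  · have : D = 0 := by
      rw [hDdef, hF]; simp
    rw [this]; simp
  obtain ⟨C0, hC0⟩ := hF
  have hkn : k ≤ n := (hk C0 hC0).trans (Finset.card_le_univ _)
  have hKk : F.card * k < 2 * n := by
    by_contra hcon'
    have hcon := not_lt.mp hcon'
    have hex : ∃ r, 2 * n ≤ r * k := ⟨F.card, hcon⟩
    let r := Nat.find hex
    have hr : 2 * n ≤ r * k := Nat.find_spec hex
    have hrF : r ≤ F.card := Nat.find_min' hex hcon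
    have hr0 : 0 < r := by
      rcases Nat.eq_zero_or_pos r with h | h
      · rw [h] at hr; omega
      · exact h
    have hr1 : (r - 1) * k < 2 * n := by
      have := Nat.find_min hex (m := r - 1) (by change r - 1 < r; omega)
      omega
    obtain ⟨S, hSF, hSc⟩ := Finset.exists_subset_card_eq hrF
    have hU := union_le F k hk h9 S hSF
    have hUn : (S.biUnion id).card ≤ n := Finset.card_le_univ _
    rw [hSc] at hU
    obtain ⟨s, hs⟩ : ∃ s, r = s + 1 := ⟨r - 1, by omega⟩
    rw [hs] at hU hr hr1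
    simp only [Nat.add_sub_cancel] at hr1
    have e1 : 2 * n ≤ 9 * ((s + 1) * s) := by nlinarith
    have e2 : (s + 1) * k < 3 * n := by nlinarith
    have e3 : 2 * n * (k * k) ≤ 9 * (((s + 1) * k) * (s * k)) := by
      calc 2 * n * (k * k) ≤ 9 * ((s + 1) * s) * (k * k) := Nat.mul_le_mul_right _ e1
        _ = 9 * (((s + 1) * k) * (s * k)) := by ring
    have e4 : ((s + 1) * k) * (s * k) ≤ (3 * n) * (2 * n) :=
      Nat.mul_le_mul e2.le hr1.le
    have e5 : 2 * n * (k * k) ≤ 2 * n * (27 * n) := by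
      calc 2 * n * (k * k) ≤ 9 * ((3 * n) * (2 * n)) := e3.trans (Nat.mul_le_mul_left _ e4)
        _ = 2 * n * (27 * n) := by ring
    have e6 : k * k ≤ 27 * n := Nat.le_of_mul_le_mul_left e5 (by omega)
    omega
  have f1 : 2 * D ≤ 9 * (F.card * F.card) := by omega
  have f2 : 2 * (D * (k * k)) ≤ 2 * (18 * (n * n)) := by
    calc 2 * (D * (k * k)) = (2 * D) * (k * k) := by ring
      _ ≤ 9 * (F.card * F.card) * (k * k) := Nat.mul_le_mul_right _ f1
      _ = 9 * ((F.card * k) * (F.card * k)) := by ring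
      _ ≤ 9 * ((2 * n) * (2 * n)) := Nat.mul_le_mul_left _ (Nat.mul_le_mul hKk.le hKk.le)
      _ = 2 * (18 * (n * n)) := by ring
  exact Nat.le_of_mul_le_mul_left f2 (by norm_num)

end Pool.Agent.OMF.H81
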